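import Pool.Agent.X258.MOG.Graph

/-!
# MP_663e97_co: minimum-order graphs with prescribed clique number, chromatic number, maximum degree

A minimum-order `(7,8,8)`-graph has 22 vertices, and the disjoint union of the 15-vertex graph
obtained from the 5-cycle by replacing every vertex by a triangle and every edge by all nine edges
between two triangles, with `K₇`, is one. It is disconnected, and none of its vertices of degree 8
lies in a `K₇`. So both Q1 and Q2 have a negative answer.

The point is that every graph on at most 21 vertices with maximum degree at most 8 and clique number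
7 is 7-colourable (`colorable_of_le`).
-/

namespace Pool.Agent.Results.MP_663e97_co.DisconnectedMinimum

open SimpleGraph Finset Pool.Agent.X258.MOG

set_option linter.unusedSectionVars false

/-- The triple `(a,b,c)` is graphical via `G`: clique number `a`, chromatic number `b` and maximum
degree `c`. -/
def Via (a b c : ℕ) {n : ℕ} (G : SimpleGraph (Fin n)) [DecidableRel G.Adj] : Prop :=
  G.cliqueNum = a ∧ G.chromaticNumber = b ∧ G.maxDegree = c

/-- `G` is a minimum-order `(a,b,c)`-graph. -/
def IsMinimumOrder (a b c : ℕ) {n : ℕ} (G : SimpleGraph (Fin n)) [DecidableRel G.Adj] : Prop :=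
  Via a b c G ∧ ∀ (m : ℕ) (H : SimpleGraph (Fin m)) [DecidableRel H.Adj], Via a b c H → n ≤ m

/-- Every graph on at most 21 vertices with maximum degree at most 8 and clique number 7 is
7-colourable. -/
theorem colorable_of_le {m : ℕ} (hm : m ≤ 21) (H : SimpleGraph (Fin m)) [DecidableRel H.Adj]
    (hΔ : ∀ v, H.degree v ≤ 8) (hω : H.cliqueNum = 7) : H.Colorable 7 := by
  classical
  obtain ⟨s, hs⟩ := H.exists_isNClique_cliqueNum
  rw [hω] at hs
  have hm0 : Nonempty (Fin m) := by
    have : 0 < s.card := by rw [hs.card_eq]; norm_num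
    obtain ⟨x, -⟩ := Finset.card_pos.mp this
    exact ⟨x⟩
  have hfree : H.CliqueFree 8 := by
    intro t ht
    have := ht.isClique.card_le_cliqueNum
    rw [ht.card_eq, hω] at this
    omega
  let f : Fin m ↪ Fin 21 := Fin.castLEEmb hm
  let G : SimpleGraph (Fin 21) := H.map f
  have hG : G.Colorable 7 := by
    apply colorable_21 G (by simp) ?_ (s.map f) hs.map (cliqueFree_map_iff.mpr hfree)
    intro v
    by_cases hv : ∃ x, f x = v
    · obtain ⟨x, rfl⟩ := hv
      have hsub : G.neighborFinset (f x) ⊆ (H.neighborFinset x).map f := by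
        intro y hy
        rw [SimpleGraph.mem_neighborFinset, SimpleGraph.map_adj] at hy
        obtain ⟨a, b, hab, hax, hby⟩ := hy
        rw [Finset.mem_map]
        refine ⟨b, ?_, hby⟩
        rw [SimpleGraph.mem_neighborFinset, ← f.injective hax]
        exact hab
      have := card_le_card hsub
      rw [card_map, SimpleGraph.card_neighborFinset_eq_degree,
        SimpleGraph.card_neighborFinset_eq_degree] at this
      exact this.trans (hΔ x)
    · have : G.neighborFinset v = ∅ := by
        rw [Finset.eq_empty_iff_forall_notMem]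
        intro y hy
        rw [SimpleGraph.mem_neighborFinset, SimpleGraph.map_adj] at hy
        obtain ⟨a, b, hab, hax, hby⟩ := hy
        exact hv ⟨a, hax⟩
      rw [← SimpleGraph.card_neighborFinset_eq_degree, this]
      simp
  exact hG.of_hom (SimpleGraph.Embedding.map f H).toHom

/-- adjacency of the example: vertices `0, …, 14` form the 5-cycle with every vertex replaced by a
triangle, vertices `15, …, 21` form `K₇` -/
def adjB (i j : Fin 22) : Bool :=
  i ≠ j && ((decide (i.val < 15) && decide (j.val < 15) &&
    ((i.val / 3 + 5 - j.val / 3) % 5 == 0 || (i.val / 3 + 5 - j.val / 3) % 5 == 1 ||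
      (i.val / 3 + 5 - j.val / 3) % 5 == 4)) ||
    (decide (15 ≤ i.val) && decide (15 ≤ j.val)))

/-- The example: the triangle blow-up of the 5-cycle together with a disjoint `K₇`. -/
def ex : SimpleGraph (Fin 22) where
  Adj i j := adjB i j = true
  symm := ⟨by decide +kernel⟩
  loopless := ⟨by decide +kernel⟩

instance : DecidableRel ex.Adj := fun i j => inferInstanceAs (Decidable (adjB i j = true))

theorem ex_degree : ∀ v : Fin 22, ex.degree v = if v.val < 15 then 8 else 6 := by
  decide +kernel

theorem ex_side : ∀ v w : Fin 22, ex.Adj v w → (v.val < 15 ↔ w.val < 15) := by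
  decide +kernel

/-- cliques in the first part have at most 6 elements -/
theorem ex_clique (s : Finset (Fin 22)) (hs : ex.IsClique s) (h : ∀ v ∈ s, v.val < 15) :
    s.card ≤ 6 := by
  let g : Fin 22 → Fin 5 := fun v => ⟨v.val / 3 % 5, Nat.mod_lt _ (by norm_num)⟩
  have h1 : s.card ≤ 3 * (s.image g).card := by
    apply Finset.card_le_mul_card_image
    intro b _
    have hsub : s.filter (fun a => g a = b) ⊆
        univ.filter (fun a : Fin 22 => a.val < 15 ∧ g a = b) := by
      intro a ha
      rw [mem_filter] at ha
      simp only [mem_filter, mem_univ, true_and]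
      exact ⟨h a ha.1, ha.2⟩
    refine (card_le_card hsub).trans ?_
    have h5 : ∀ b : Fin 5, (univ.filter (fun a : Fin 22 => a.val < 15 ∧
        (⟨a.val / 3 % 5, Nat.mod_lt _ (by norm_num)⟩ : Fin 5) = b)).card ≤ 3 := by
      decide +kernel
    exact h5 b
  have h2 : ∀ T : Finset (Fin 5), (∀ a ∈ T, ∀ b ∈ T, (a.val + 5 - b.val) % 5 = 0 ∨
      (a.val + 5 - b.val) % 5 = 1 ∨ (a.val + 5 - b.val) % 5 = 4) → T.card ≤ 2 := by
    decide +kernel
  have h4 : ∀ v w : Fin 22, v.val < 15 → w.val < 15 → (v = w ∨ ex.Adj v w) →
      ((g v).val + 5 - (g w).val) % 5 = 0 ∨ ((g v).val + 5 - (g w).val) % 5 = 1 ∨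
      ((g v).val + 5 - (g w).val) % 5 = 4 := by
    decide +kernel
  have h3 := h2 (s.image g) (by
    intro a ha b hb
    obtain ⟨v, hv, rfl⟩ := mem_image.mp ha
    obtain ⟨w, hw, rfl⟩ := mem_image.mp hb
    apply h4 v w (h v hv) (h w hw)
    by_cases hvw : v = w
    · exact Or.inl hvw
    · exact Or.inr (hs hv hw hvw))
  omega

theorem ex_cliqueNum : ex.cliqueNum = 7 := by
  apply le_antisymm
  · obtain ⟨s, hs⟩ := ex.exists_isNClique_cliqueNum
    rw [← hs.card_eq]
    by_cases h : ∃ v ∈ s, v.val < 15
    · obtain ⟨v, hv, hv15⟩ := h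
      have := ex_clique s hs.isClique (by
        intro w hw
        by_cases hvw : v = w
        · rw [← hvw]; exact hv15
        · exact (ex_side v w (hs.isClique hv hw hvw)).mp hv15)
      omega
    · push Not at h
      have hsub : s ⊆ univ.filter (fun v : Fin 22 => 15 ≤ v.val) := by
        intro v hv
        simpa using h v hv
      exact (card_le_card hsub).trans (by decide +kernel)
  · have h1 : ex.IsClique (univ.filter (fun v : Fin 22 => 15 ≤ v.val) : Finset (Fin 22)) := by
      have : ∀ v w : Fin 22, 15 ≤ v.val → 15 ≤ w.val → v ≠ w → ex.Adj v w := by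
        decide +kernel
      intro v hv w hw hvw
      simp only [coe_filter, mem_univ, true_and, Set.mem_ofPred_eq] at hv hw
      exact this v w hv hw hvw
    have h2 := h1.card_le_cliqueNum
    have h3 : (univ.filter (fun v : Fin 22 => 15 ≤ v.val)).card = 7 := by decide +kernel
    omega

/-- an 8-colouring of the example -/
def col (v : Fin 22) : Fin 8 :=
  if h : v.val < 15 then ⟨v.val % 8, Nat.mod_lt _ (by norm_num)⟩ else
    ⟨(v.val - 15) % 8, Nat.mod_lt _ (by norm_num)⟩

theorem ex_not_colorable : ¬ ex.Colorable 7 := by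
  rintro ⟨C⟩
  have h1 : ∃ y ∈ (univ : Finset (Fin 7)),
      2 < ((univ.filter (fun v : Fin 22 => v.val < 15)).filter (fun v => C v = y)).card := by
    apply Finset.exists_lt_card_fiber_of_mul_lt_card_of_maps_to
    · intro a _; exact mem_univ _
    · have : (univ.filter (fun v : Fin 22 => v.val < 15)).card = 15 := by decide +kernel
      rw [this]
      simp
  obtain ⟨y, -, hy⟩ := h1
  rw [Finset.two_lt_card] at hy
  obtain ⟨a, ha, b, hb, c, hc, hab, hac, hbc⟩ := hy
  simp only [mem_filter, mem_univ, true_and] at ha hb hc
  have key : ∀ a b c : Fin 22, a.val < 15 → b.val < 15 → c.val < 15 → a ≠ b → a ≠ c → b ≠ c →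
      ex.Adj a b ∨ ex.Adj a c ∨ ex.Adj b c := by
    decide +kernel
  rcases key a b c ha.1 hb.1 hc.1 hab hac hbc with h | h | h
  · exact C.valid h (ha.2.trans hb.2.symm)
  · exact C.valid h (ha.2.trans hc.2.symm)
  · exact C.valid h (hb.2.trans hc.2.symm)

theorem ex_chromaticNumber : ex.chromaticNumber = 8 := by
  have h1 : ex.Colorable 8 := by
    refine ⟨Coloring.mk col ?_⟩
    intro v w
    revert v w
    decide +kernel
  have := (chromaticNumber_eq_iff_colorable_not_colorable (G := ex) (n := 7)).mpr
    ⟨h1, ex_not_colorable⟩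
  rw [this]
  norm_num

theorem ex_maxDegree : ex.maxDegree = 8 := by
  apply le_antisymm
  · apply maxDegree_le_of_forall_degree_le
    intro v
    rw [ex_degree]
    split_ifs <;> norm_num
  · have := ex.degree_le_maxDegree 0
    rw [ex_degree] at this
    simpa using this

theorem ex_not_connected : ¬ ex.Connected := by
  intro h
  obtain ⟨p⟩ := h.preconnected 0 21
  have key : ∀ (u v : Fin 22), ex.Walk u v → (u.val < 15 ↔ v.val < 15) := by
    intro u v p
    induction p with
    | nil => exact Iff.rfl
    | cons h _ ih => exact (ex_side _ _ h).trans ih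
  have := (key 0 21 p).mp (by norm_num)
  exact absurd this (by decide)

/-- **Result (MP_663e97_co, both questions answered negatively).** `ex` is a minimum-order
`(7,8,8)`-graph (so `p(7,8,8) = 22`); it is disconnected (Q1), and no vertex of degree
`8 = Δ` of `ex` lies in a complete subgraph on `7 = ω` vertices (Q2). -/
theorem result : IsMinimumOrder 7 8 8 ex ∧ ¬ ex.Connected ∧
    (∀ s : Finset (Fin 22), ex.IsNClique 7 s → ∀ v ∈ s, ex.degree v ≠ 8) := by
  refine ⟨⟨⟨ex_cliqueNum, ex_chromaticNumber, ex_maxDegree⟩, ?_⟩, ex_not_connected, ?_⟩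
  · intro m H _ hH
    by_contra hlt
    have hc := colorable_of_le (show m ≤ 21 by omega) H
      (fun v => (H.degree_le_maxDegree v).trans hH.2.2.le) hH.1
    have := hc.chromaticNumber_le
    rw [hH.2.1] at this
    exact absurd this (by norm_num)
  · intro s hs v hv hd
    have hv15 : v.val < 15 := by
      rw [ex_degree] at hd
      by_contra h
      rw [if_neg h] at hd
      omega
    have := ex_clique s hs.isClique (by
      intro w hw
      by_cases hvw : v = w
      · rw [← hvw]; exact hv15
      · exact (ex_side v w (hs.isClique hv hw hvw)).mp hv15)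
    rw [hs.card_eq] at this
    omega

end Pool.Agent.Results.MP_663e97_co.DisconnectedMinimum
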